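import Pool.Agent.Q120.NB.AsmB
import Pool.Agent.H295R2.T6b
import Pool.Agent.H353R3.S6

set_option autoImplicit false

/-! # Project NB: upper bounds, and the supremum of the real parts of the zeros (for the assembly) -/

namespace Pool.Agent.Q120.NB

open Complex MeasureTheory Filter Topology Set
open scoped ENNReal

/-- the nontrivial zeros -/
def zeros : Set ℂ := {s : ℂ | riemannZeta s = 0 ∧ 0 < s.re ∧ s.re < 1}

/-- the supremum of their real parts -/
noncomputable def Theta : ℝ := sSup (Complex.re '' zeros)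

lemma Theta_eq : Theta = Pool.Agent.H295R2.zetaSup := rfl

lemma half_le : 1 / 2 ≤ Theta := Pool.Agent.H295R2.half_le_zetaSup

lemma Theta_le_one : Theta ≤ 1 := Pool.Agent.H295R2.zetaSup_le_one

lemma re_le {s : ℂ} (hs : s ∈ zeros) : s.re ≤ Theta :=
  le_csSup Pool.Agent.H295R2.zset_bdd (mem_image_of_mem _ hs)

lemma free {s : ℂ} (h : Theta < s.re) : riemannZeta s ≠ 0 := by
  intro h0
  by_cases h1 : 1 ≤ s.re
  · exact riemannZeta_ne_zero_of_one_le_re h1 h0
  · have h2 := half_le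
    have := re_le (s := s) ⟨h0, by linarith, not_le.mp h1⟩
    linarith

lemma exists_zero {ε : ℝ} (hε : 0 < ε) : ∃ ρ ∈ zeros, Theta - ε < ρ.re := by
  have h1 : (Complex.re '' zeros).Nonempty := Pool.Agent.H295R2.zset_nonempty
  obtain ⟨x, ⟨ρ, hρ, rfl⟩, h2⟩ := exists_lt_of_lt_csSup h1 (show Theta - ε < Theta by linarith)
  exact ⟨ρ, hρ, h2⟩

lemma Theta_le_iff {θ : ℝ} (hθ : 1 / 2 ≤ θ) : Theta ≤ θ ↔ ∀ s : ℂ, θ < s.re → riemannZeta s ≠ 0 := by
  constructor
  · intro h s hs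
    exact free (lt_of_le_of_lt h hs)
  · intro h
    refine csSup_le Pool.Agent.H295R2.zset_nonempty ?_
    rintro x ⟨s, hs, rfl⟩
    by_contra h1
    exact h s (not_le.mp h1) hs.1

lemma rh_iff : RiemannHypothesis ↔ Theta ≤ 1 / 2 := by
  constructor
  · intro h
    refine csSup_le Pool.Agent.H295R2.zset_nonempty ?_
    rintro x ⟨s, hs, rfl⟩
    refine (h s hs.1 ?_ ?_).le
    · rintro ⟨n, hn⟩
      have h1 := hs.2.1
      rw [hn] at h1
      simp at h1
      have h2 : (0:ℝ) ≤ n := n.cast_nonneg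
      linarith
    · rintro rfl
      have := hs.2.2
      simp at this
  · intro h
    refine H353.RH_of fun s hs _ => free (lt_of_le_of_lt h hs)

lemma ey_eq_fam (N : ℕ) (a : ℕ → ℂ) {y : ℝ} (hy : 0 < y) : eyR (fam N a) y = ey N a y := by
  have h1 := err_fam N a (1 / y)
  rw [errR_eq _ (by positivity), err_eq _ _ (by positivity), one_div_one_div] at h1
  exact h1

lemma ny_congr {p σ : ℝ} {u v : ℝ → ℂ} (h : ∀ y : ℝ, 0 < y → u y = v y) : ny p σ u = ny p σ v := by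
  unfold ny
  congr 1
  refine setIntegral_congr_fun measurableSet_Ioi fun y hy => ?_
  simp only [h y hy]

lemma ey_meas (N : ℕ) (a : ℕ → ℂ) : Measurable (ey N a) := by
  unfold ey
  refine Measurable.sub ?_ ?_
  · exact Measurable.ite measurableSet_Ici measurable_const measurable_const
  · refine Finset.measurable_sum _ fun n _ => ?_
    refine measurable_const.mul (Complex.measurable_ofReal.comp (measurable_fract.comp ?_))
    fun_prop

/-- upper bound for the Möbius coefficients, all exponents -/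
lemma upper_all (hXY : J_XY) (hMEL : J_MEL) (hUP : J_UP) (hHOL : J_HOL) (hSUP : J_SUP) (hHO2 : J_HO2) {p : ℝ≥0∞}
    (hp1 : 1 ≤ p) {σ ε : ℝ} (h0 : Theta < σ) (h1 : σ < 1) (hε : 0 < ε) :
    ∃ C : ℝ, 0 < C ∧ ∀ N : ℕ, 1 ≤ N →
      nrm p σ (err N (mob N)) ≤ ENNReal.ofReal (C * (N : ℝ) ^ (Theta - σ + ε)) := by
  have hfree : ∀ s : ℂ, Theta < s.re → riemannZeta s ≠ 0 := fun s hs => free hs
  have hσ0 : 0 < σ := by have := half_le; linarith
  have hfam : ∀ N : ℕ, 1 ≤ N → ∀ θ ∈ (fam N (mob N)).support, 0 < θ ∧ θ ≤ 1 := by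
    intro N hN θ hθ
    have h2 := fam_supp N (mob N) θ hθ
    have h3 : (0:ℝ) < 1 / N := by
      have : (0:ℝ) < N := by exact_mod_cast hN
      positivity
    exact ⟨h3.trans_le h2.1, h2.2⟩
  by_cases hpt : p = ⊤
  · subst hpt
    obtain ⟨C, hC, h2⟩ := hSUP Theta half_le hfree σ ε h0 h1 hε
    refine ⟨C, hC, fun N hN => nrm_top_le fun x hx0 => ?_⟩
    have h3 := h2 N (1 / x) hN (by positivity)
    rw [err_eq _ _ hx0]
    have h4 : (1 / x) ^ σ * x ^ σ = 1 := by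
      rw [← Real.mul_rpow (by positivity) hx0.le, one_div, inv_mul_cancel₀ hx0.ne', Real.one_rpow]
    calc ‖ey N (mob N) (1 / x)‖ * x ^ σ ≤ (C * (N : ℝ) ^ (Theta - σ + ε) * (1 / x) ^ σ) * x ^ σ := by gcongr
      _ = C * (N : ℝ) ^ (Theta - σ + ε) := by rw [mul_assoc, h4, mul_one]
  · have hq : 1 ≤ p.toReal := by
      have := ENNReal.toReal_mono hpt hp1
      simpa using this
    have key : ∀ N : ℕ, 1 ≤ N → nrm p σ (err N (mob N)) = ENNReal.ofReal (ny p.toReal σ (ey N (mob N))) := by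
      intro N hN
      rw [← nrm_congr (fun x _ => err_fam N (mob N) x), nrm_errR hXY hp1 hpt hσ0 h1 _ (hfam N hN),
        ny_congr (fun y hy => ey_eq_fam N (mob N) hy)]
    suffices h : ∃ C : ℝ, 0 < C ∧ ∀ N : ℕ, 1 ≤ N →
        ny p.toReal σ (ey N (mob N)) ≤ C * (N : ℝ) ^ (Theta - σ + ε) by
      obtain ⟨C, hC, h2⟩ := h
      refine ⟨C, hC, fun N hN => ?_⟩
      rw [key N hN]
      exact ENNReal.ofReal_le_ofReal (h2 N hN)
    rcases le_total p.toReal 2 with hq2 | hq2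
    · -- `q ≤ 2`
      set q := p.toReal with hqd
      obtain ⟨η, hη, hη1, hη2, hη3⟩ : ∃ η : ℝ, 0 < η ∧ η ≤ ε / 2 ∧ Theta < σ - η ∧ σ + η < 1 := by
        refine ⟨min (ε / 2) (min ((σ - Theta) / 2) ((1 - σ) / 2)), ?_, min_le_left _ _, ?_, ?_⟩
        · exact lt_min (by linarith) (lt_min (by linarith) (by linarith))
        · have : min (ε / 2) (min ((σ - Theta) / 2) ((1 - σ) / 2)) ≤ (σ - Theta) / 2 :=
            (min_le_right _ _).trans (min_le_left _ _)
          linarith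
        · have : min (ε / 2) (min ((σ - Theta) / 2) ((1 - σ) / 2)) ≤ (1 - σ) / 2 :=
            (min_le_right _ _).trans (min_le_right _ _)
          linarith
      obtain ⟨C1, hC1, h2⟩ := hUP Theta half_le hfree (σ - η) ε hη2 (by linarith) hε
      obtain ⟨C2, hC2, h3⟩ := hUP Theta half_le hfree (σ + η) ε (by linarith) hη3 hε
      obtain ⟨C3, hC3, h4⟩ := hHOL q σ η hq hq2 hη
      refine ⟨C3 * Real.sqrt (C1 + C2), by positivity, fun N hN => ?_⟩
      have hN1 : (1:ℝ) ≤ N := by exact_mod_cast hN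
      have hN0 : (0:ℝ) < N := by linarith
      obtain ⟨-, h5⟩ := h4 (ey N (mob N)) (ey_meas N _)
        (hMEL (σ - η) (by have := half_le; linarith) (by linarith) N (mob N) hN).1
        (hMEL (σ + η) (by linarith) hη3 N (mob N) hN).1
      refine h5.trans ?_
      rw [mul_assoc]
      refine mul_le_mul_of_nonneg_left ?_ hC3.le
      have h6 : (∫ y in Ioi (0 : ℝ), ‖ey N (mob N) y‖ ^ (2:ℝ) * y ^ (-(2 * (σ - η)) - 1)) +
          ∫ y in Ioi (0 : ℝ), ‖ey N (mob N) y‖ ^ (2:ℝ) * y ^ (-(2 * (σ + η)) - 1) ≤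
          (C1 + C2) * ((N : ℝ) ^ (Theta - σ + ε)) ^ 2 := by
        have e1 : (N : ℝ) ^ (2 * (Theta - (σ - η)) + ε) ≤ ((N : ℝ) ^ (Theta - σ + ε)) ^ 2 := by
          rw [← Real.rpow_natCast, ← Real.rpow_mul hN0.le]
          refine Real.rpow_le_rpow_of_exponent_le hN1 ?_
          push_cast
          linarith
        have e2 : (N : ℝ) ^ (2 * (Theta - (σ + η)) + ε) ≤ ((N : ℝ) ^ (Theta - σ + ε)) ^ 2 := by
          rw [← Real.rpow_natCast, ← Real.rpow_mul hN0.le]
          refine Real.rpow_le_rpow_of_exponent_le hN1 ?_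
          push_cast
          linarith
        have e3 := h2 N hN
        have e4 := h3 N hN
        have e5 : C1 * (N : ℝ) ^ (2 * (Theta - (σ - η)) + ε) ≤ C1 * ((N : ℝ) ^ (Theta - σ + ε)) ^ 2 := by gcongr
        have e6 : C2 * (N : ℝ) ^ (2 * (Theta - (σ + η)) + ε) ≤ C2 * ((N : ℝ) ^ (Theta - σ + ε)) ^ 2 := by gcongr
        simp only [Real.rpow_two] at e3 e4 ⊢
        linarith [add_mul C1 C2 (((N : ℝ) ^ (Theta - σ + ε)) ^ 2)]
      have h7 : Real.sqrt ((C1 + C2) * ((N : ℝ) ^ (Theta - σ + ε)) ^ 2) =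
          Real.sqrt (C1 + C2) * (N : ℝ) ^ (Theta - σ + ε) := by
        rw [Real.sqrt_mul (by positivity), Real.sqrt_sq (by positivity)]
      rw [← h7]
      refine Real.sqrt_le_sqrt ?_
      simpa only [Real.rpow_two] using h6
    · -- `2 ≤ q`
      set q := p.toReal with hqd
      obtain ⟨C1, hC1, h2⟩ := hSUP Theta half_le hfree σ ε h0 h1 hε
      obtain ⟨C2, hC2, h3⟩ := hUP Theta half_le hfree σ ε h0 h1 hε
      refine ⟨C1 ^ (1 - 2 / q) * C2 ^ (1 / q), by positivity, fun N hN => ?_⟩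
      have hN1 : (1:ℝ) ≤ N := by exact_mod_cast hN
      have hN0 : (0:ℝ) < N := by linarith
      have hM : 0 ≤ C1 * (N : ℝ) ^ (Theta - σ + ε) := by positivity
      obtain ⟨-, h5⟩ := hHO2 q σ (C1 * (N : ℝ) ^ (Theta - σ + ε)) hq2 hM (ey N (mob N)) (ey_meas N _)
        (hMEL σ hσ0 h1 N (mob N) hN).1 (fun y hy => h2 N y hN hy)
      refine h5.trans ?_
      have e3 := h3 N hN
      have hq0 : 0 < q := by linarith
      have e0 : 0 ≤ ∫ y in Ioi (0 : ℝ), ‖ey N (mob N) y‖ ^ (2:ℝ) * y ^ (-(2 * σ) - 1) := by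
        refine setIntegral_nonneg measurableSet_Ioi fun y hy => ?_
        have hy : (0:ℝ) < y := hy
        positivity
      have e4 : (∫ y in Ioi (0 : ℝ), ‖ey N (mob N) y‖ ^ (2:ℝ) * y ^ (-(2 * σ) - 1)) ^ (1 / q) ≤
          C2 ^ (1 / q) * (N : ℝ) ^ ((2 * (Theta - σ) + ε) / q) := by
        have e5 : (∫ y in Ioi (0 : ℝ), ‖ey N (mob N) y‖ ^ (2:ℝ) * y ^ (-(2 * σ) - 1)) ^ (1 / q) ≤
            (C2 * (N : ℝ) ^ (2 * (Theta - σ) + ε)) ^ (1 / q) := by
          refine Real.rpow_le_rpow e0 ?_ (by positivity)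
          simpa only [Real.rpow_two] using e3
        rw [Real.mul_rpow hC2.le (by positivity), ← Real.rpow_mul hN0.le, ← div_eq_mul_one_div] at e5
        exact e5
      have e6 : (C1 * (N : ℝ) ^ (Theta - σ + ε)) ^ (1 - 2 / q) =
          C1 ^ (1 - 2 / q) * (N : ℝ) ^ ((Theta - σ + ε) * (1 - 2 / q)) := by
        rw [Real.mul_rpow hC1.le (by positivity), ← Real.rpow_mul hN0.le]
      have e7 : (∫ y in Ioi (0 : ℝ), ‖ey N (mob N) y‖ ^ 2 * y ^ (-(2 * σ) - 1)) ^ (1 / q) =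
          (∫ y in Ioi (0 : ℝ), ‖ey N (mob N) y‖ ^ (2:ℝ) * y ^ (-(2 * σ) - 1)) ^ (1 / q) := by
        simp only [Real.rpow_two]
      rw [e7, e6]
      calc C1 ^ (1 - 2 / q) * (N : ℝ) ^ ((Theta - σ + ε) * (1 - 2 / q)) *
            (∫ y in Ioi (0 : ℝ), ‖ey N (mob N) y‖ ^ (2:ℝ) * y ^ (-(2 * σ) - 1)) ^ (1 / q)
          ≤ C1 ^ (1 - 2 / q) * (N : ℝ) ^ ((Theta - σ + ε) * (1 - 2 / q)) *
            (C2 ^ (1 / q) * (N : ℝ) ^ ((2 * (Theta - σ) + ε) / q)) := by gcongr
        _ = C1 ^ (1 - 2 / q) * C2 ^ (1 / q) *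
            (N : ℝ) ^ ((Theta - σ + ε) * (1 - 2 / q) + (2 * (Theta - σ) + ε) / q) := by
          rw [Real.rpow_add hN0]; ring
        _ ≤ C1 ^ (1 - 2 / q) * C2 ^ (1 / q) * (N : ℝ) ^ (Theta - σ + ε) := by
          refine mul_le_mul_of_nonneg_left (Real.rpow_le_rpow_of_exponent_le hN1 ?_) (by positivity)
          have : (Theta - σ + ε) * (1 - 2 / q) + (2 * (Theta - σ) + ε) / q = Theta - σ + ε - ε / q := by
            field_simp
            ring
          rw [this]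
          have : 0 < ε / q := by positivity
          linarith

/-- the norm of `χ` -/
lemma chi_fin (hXY : J_XY) {p : ℝ≥0∞} (hp1 : 1 ≤ p) {σ : ℝ} (h0 : 0 < σ) (h1 : σ < 1) (N : ℕ) :
    nrm p σ (err N 0) = nrm p σ (errR 0) ∧ nrm p σ (errR 0) < ⊤ := by
  have h2 : ∀ x : ℝ, err N 0 x = errR 0 x := by
    intro x
    simp [err, errR]
  refine ⟨nrm_congr fun x _ => h2 x, ?_⟩
  by_cases hpt : p = ⊤
  · subst hpt
    refine lt_of_le_of_lt (nrm_top_le (M := 1) fun x hx0 => ?_) ENNReal.ofReal_lt_top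
    have h3 : errR 0 x = if x ≤ 1 then 1 else 0 := by simp [errR]
    rw [h3]
    split_ifs with h4
    · simp only [norm_one, one_mul]
      exact Real.rpow_le_one hx0.le h4 h0.le
    · simp
  · rw [nrm_errR hXY hp1 hpt h0 h1 0 (by simp)]
    exact ENNReal.ofReal_lt_top

end Pool.Agent.Q120.NB
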