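import Pool.Agent.Q120.NB.Stm2
import Pool.Agent.Q65.NB.Int

set_option autoImplicit false

/-! # Project NB: the norms (for the assembly) -/

namespace Pool.Agent.Q120.NB

open Complex MeasureTheory Filter Topology Set
open scoped ENNReal

/-- the measure `dx / x` on `(0, ∞)` -/
noncomputable def hx : Measure ℝ := (volume.restrict (Ioi 0)).withDensity fun x => ENNReal.ofReal (1 / x)

/-- the norm of `x^σ f(x)` in `L^p((0,∞), dx/x)` -/
noncomputable def nrm (p : ℝ≥0∞) (σ : ℝ) (f : ℝ → ℂ) : ℝ≥0∞ :=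
  eLpNorm (fun x => ((x ^ σ : ℝ) : ℂ) * f x) p hx

lemma ae_hx {P : ℝ → Prop} (h : ∀ x : ℝ, 0 < x → P x) : ∀ᵐ x ∂hx, P x := by
  have h1 : hx ≪ volume.restrict (Ioi 0) := withDensity_absolutelyContinuous _ _
  exact h1.ae_le (by
    filter_upwards [ae_restrict_mem measurableSet_Ioi] with x hx0
    exact h x hx0)

lemma ae_of_hx {P : ℝ → Prop} (h : ∀ᵐ x ∂hx, P x) : ∀ᵐ x ∂(volume.restrict (Ioi (0:ℝ))), P x := by
  have h1 : volume.restrict (Ioi (0:ℝ)) ≪ hx := by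
    refine withDensity_absolutelyContinuous' ?_ ?_
    · exact (by fun_prop : Measurable fun x : ℝ => ENNReal.ofReal (1 / x)).aemeasurable
    · filter_upwards [ae_restrict_mem measurableSet_Ioi] with x hx0
      have : (0:ℝ) < 1 / x := by have : (0:ℝ) < x := hx0
                                 positivity
      simpa using this
  exact h1.ae_le h

lemma nrm_congr {p : ℝ≥0∞} {σ : ℝ} {f g : ℝ → ℂ} (h : ∀ x : ℝ, 0 < x → f x = g x) :
    nrm p σ f = nrm p σ g := by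
  unfold nrm
  refine eLpNorm_congr_ae (ae_hx fun x hx0 => ?_)
  simp only [h x hx0]

/-- finite exponents -/
lemma nrm_eq {p : ℝ≥0∞} (hp1 : 1 ≤ p) (hpt : p ≠ ⊤) {σ : ℝ} {f : ℝ → ℂ} (hf : Measurable f)
    (hi : IntegrableOn (fun x : ℝ => ‖f x‖ ^ p.toReal * x ^ (p.toReal * σ - 1)) (Ioi 0)) :
    nrm p σ f = ENNReal.ofReal ((∫ x in Ioi (0:ℝ), ‖f x‖ ^ p.toReal * x ^ (p.toReal * σ - 1)) ^ (1 / p.toReal)) := by
  have hp0 : p ≠ 0 := by rintro rfl; simp at hp1
  have hq : 0 < p.toReal := ENNReal.toReal_pos hp0 hpt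
  unfold nrm
  rw [eLpNorm_eq_lintegral_rpow_enorm_toReal hp0 hpt]
  have hg : Measurable fun x : ℝ => ‖((x ^ σ : ℝ) : ℂ) * f x‖ₑ ^ p.toReal := by
    have h1 : Measurable fun x : ℝ => ((x ^ σ : ℝ) : ℂ) * f x := by fun_prop
    exact h1.enorm.pow_const _
  have h1 : ∫⁻ x, ‖((x ^ σ : ℝ) : ℂ) * f x‖ₑ ^ p.toReal ∂hx =
      ENNReal.ofReal (∫ x in Ioi (0:ℝ), ‖f x‖ ^ p.toReal * x ^ (p.toReal * σ - 1)) := by
    unfold hx
    rw [lintegral_withDensity_eq_lintegral_mul _ (by fun_prop) hg,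
      ofReal_integral_eq_lintegral_ofReal hi]
    · refine setLIntegral_congr_fun measurableSet_Ioi fun x hx0 => ?_
      have hx0 : (0:ℝ) < x := hx0
      simp only [Pi.mul_apply]
      rw [← ofReal_norm_eq_enorm, norm_mul, Complex.norm_real, Real.norm_of_nonneg (by positivity),
        ENNReal.ofReal_rpow_of_nonneg (by positivity) hq.le, ← ENNReal.ofReal_mul (by positivity)]
      congr 1
      rw [Real.mul_rpow (by positivity) (by positivity), ← Real.rpow_mul hx0.le, one_div,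
        Real.rpow_sub hx0, Real.rpow_one, mul_comm σ]
      field_simp
    · filter_upwards [ae_restrict_mem measurableSet_Ioi] with x hx0
      have hx0 : (0:ℝ) < x := hx0
      positivity
  rw [h1, ENNReal.ofReal_rpow_of_nonneg ?_ (by positivity)]
  refine setIntegral_nonneg measurableSet_Ioi fun x hx0 => ?_
  have hx0 : (0:ℝ) < x := hx0
  positivity

/-- the supremum norm, upper bound -/
lemma nrm_top_le {σ M : ℝ} {f : ℝ → ℂ} (h : ∀ x : ℝ, 0 < x → ‖f x‖ * x ^ σ ≤ M) :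
    nrm ⊤ σ f ≤ ENNReal.ofReal M := by
  unfold nrm
  rw [eLpNorm_exponent_top]
  refine eLpNormEssSup_le_of_ae_bound (ae_hx fun x hx0 => ?_)
  rw [norm_mul, Complex.norm_real, Real.norm_of_nonneg (by positivity), mul_comm]
  exact h x hx0

/-- the supremum norm, almost everywhere bound -/
lemma ae_le_nrm_top {σ : ℝ} {f : ℝ → ℂ} (h : nrm ⊤ σ f ≠ ⊤) :
    ∀ᵐ x ∂(volume.restrict (Ioi (0:ℝ))), ‖f x‖ * x ^ σ ≤ (nrm ⊤ σ f).toReal := by
  have h1 : ∀ᵐ x ∂hx, ‖((x ^ σ : ℝ) : ℂ) * f x‖ₑ ≤ nrm ⊤ σ f := by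
    unfold nrm
    rw [eLpNorm_exponent_top]
    exact enorm_ae_le_eLpNormEssSup _ _
  filter_upwards [ae_of_hx h1, ae_restrict_mem measurableSet_Ioi] with x h2 hx0
  have hx0 : (0:ℝ) < x := hx0
  have h3 := ENNReal.toReal_mono h h2
  rw [toReal_enorm, norm_mul, Complex.norm_real, Real.norm_of_nonneg (by positivity), mul_comm] at h3
  exact h3

end Pool.Agent.Q120.NB
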