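import Pool.Agent.Q120.NB.AsmA

set_option autoImplicit false

/-! # Project NB: lower bounds in the variable `x` (for the assembly) -/

namespace Pool.Agent.Q120.NB

open Complex MeasureTheory Filter Topology Set
open scoped ENNReal

/-- the error, dilations `1/n` -/
noncomputable def err (N : ℕ) (a : ℕ → ℂ) (x : ℝ) : ℂ :=
  (if x ≤ 1 then 1 else 0) - ∑ n ∈ Finset.Icc 1 N, a n * ((Int.fract (1 / (n * x)) : ℝ) : ℂ)

/-- the error, real dilations -/
noncomputable def errR (a : ℝ →₀ ℂ) (x : ℝ) : ℂ :=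
  (if x ≤ 1 then 1 else 0) - a.sum fun θ c => c * ((Int.fract (θ / x) : ℝ) : ℂ)

lemma err_eq (N : ℕ) (a : ℕ → ℂ) {x : ℝ} (hx0 : 0 < x) : err N a x = ey N a (1 / x) := by
  unfold err ey
  congr 1
  · have : x ≤ 1 ↔ 1 ≤ 1 / x := by rw [le_div_iff₀ hx0, one_mul]
    simp only [this]
  · refine Finset.sum_congr rfl fun n _ => ?_
    rw [div_div, mul_comm x]

lemma errR_eq (a : ℝ →₀ ℂ) {x : ℝ} (hx0 : 0 < x) : errR a x = eyR a (1 / x) := by
  unfold errR eyR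
  congr 1
  · have : x ≤ 1 ↔ 1 ≤ 1 / x := by rw [le_div_iff₀ hx0, one_mul]
    simp only [this]
  · refine Finsupp.sum_congr fun θ _ => ?_
    rw [div_eq_mul_one_div θ x]

lemma err_meas (N : ℕ) (a : ℕ → ℂ) : Measurable (err N a) := by
  unfold err
  refine Measurable.sub ?_ ?_
  · exact Measurable.ite measurableSet_Iic measurable_const measurable_const
  · refine Finset.measurable_sum _ fun n _ => ?_
    refine measurable_const.mul (Complex.measurable_ofReal.comp (measurable_fract.comp ?_))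
    fun_prop

lemma errR_meas (a : ℝ →₀ ℂ) : Measurable (errR a) := by
  unfold errR Finsupp.sum
  refine Measurable.sub ?_ ?_
  · exact Measurable.ite measurableSet_Iic measurable_const measurable_const
  · refine Finset.measurable_sum _ fun n _ => ?_
    refine measurable_const.mul (Complex.measurable_ofReal.comp (measurable_fract.comp ?_))
    fun_prop

/-- the family of the `1/n` -/
noncomputable def fam (N : ℕ) (a : ℕ → ℂ) : ℝ →₀ ℂ := ∑ n ∈ Finset.Icc 1 N, Finsupp.single (1 / (n : ℝ)) (a n)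

lemma fam_supp (N : ℕ) (a : ℕ → ℂ) : ∀ θ ∈ (fam N a).support, 1 / (N : ℝ) ≤ θ ∧ θ ≤ 1 := by
  intro θ hθ
  unfold fam at hθ
  have h1 := Finsupp.support_finset_sum hθ
  simp only [Finset.mem_biUnion] at h1
  obtain ⟨n, hn, h2⟩ := h1
  have h3 := Finsupp.support_single_subset h2
  simp only [Finset.mem_singleton] at h3
  subst h3
  rw [Finset.mem_Icc] at hn
  have h4 : (1:ℝ) ≤ n := by exact_mod_cast hn.1
  have h5 : (n:ℝ) ≤ N := by exact_mod_cast hn.2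
  exact ⟨one_div_le_one_div_of_le (by linarith) h5, by rw [div_le_one (by linarith)]; exact h4⟩

lemma err_fam (N : ℕ) (a : ℕ → ℂ) (x : ℝ) : errR (fam N a) x = err N a x := by
  unfold errR err fam
  congr 1
  rw [← Finsupp.sum_finset_sum_index]
  · refine Finset.sum_congr rfl fun n _ => ?_
    rw [Finsupp.sum_single_index (by simp), div_div]
  · intro; simp
  · intro _ b c; ring

/-- integrability in the variable `x` -/
lemma errR_int {q σ : ℝ} (hq : 1 ≤ q) (h0 : 0 < σ) (h1 : σ < 1) (a : ℝ →₀ ℂ)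
    (ha : ∀ θ ∈ a.support, 0 < θ ∧ θ ≤ 1) :
    IntegrableOn (fun x : ℝ => ‖errR a x‖ ^ q * x ^ (q * σ - 1)) (Ioi 0) := by
  have h2 := (Pool.Agent.Q65.NB.t_INT q σ hq h0 h1 a ha).2
  have h3 := (integrableOn_Ioi_comp_rpow_iff (fun y : ℝ => ‖eyR a y‖ ^ q * y ^ (-(q * σ) - 1))
    (p := -1) (by norm_num)).mpr h2
  refine h3.congr_fun (fun x hx0 => ?_) measurableSet_Ioi
  have hx0 : (0:ℝ) < x := hx0
  simp only [smul_eq_mul, abs_neg, abs_one, one_mul]
  rw [Real.rpow_neg_one, errR_eq a hx0, ← one_div]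
  rw [one_div, Real.inv_rpow hx0.le, ← Real.rpow_neg hx0.le]
  rw [show x ^ ((-1:ℝ) - 1) * (‖eyR a x⁻¹‖ ^ q * x ^ (-(-(q * σ) - 1))) =
    ‖eyR a x⁻¹‖ ^ q * (x ^ ((-1:ℝ) - 1) * x ^ (-(-(q * σ) - 1))) by ring, ← Real.rpow_add hx0]
  congr 2
  ring

/-- the norm for finite exponents -/
lemma nrm_errR (hXY : J_XY) {p : ℝ≥0∞} (hp1 : 1 ≤ p) (hpt : p ≠ ⊤) {σ : ℝ} (h0 : 0 < σ) (h1 : σ < 1) (a : ℝ →₀ ℂ)
    (ha : ∀ θ ∈ a.support, 0 < θ ∧ θ ≤ 1) :
    nrm p σ (errR a) = ENNReal.ofReal (ny p.toReal σ (eyR a)) := by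
  have hq : 1 ≤ p.toReal := by
    have := ENNReal.toReal_mono hpt hp1
    simpa using this
  rw [nrm_eq hp1 hpt (errR_meas a) (errR_int hq h0 h1 a ha)]
  unfold ny
  rw [← hXY p.toReal σ (eyR a) (by linarith)]
  congr 2
  refine setIntegral_congr_fun measurableSet_Ioi fun x hx0 => ?_
  simp only [errR_eq a hx0]

/-- left continuity -/
lemma fract_left {θ : ℝ} (hθ : 0 < θ) {x : ℝ} (hx0 : 0 < x) :
    Tendsto (fun z : ℝ => Int.fract (θ / z)) (𝓝[<] x) (𝓝 (Int.fract (θ / x))) := by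
  have h1 : Tendsto (fun z : ℝ => θ / z) (𝓝[<] x) (𝓝 (θ / x)) := by
    refine Tendsto.mono_left ?_ nhdsWithin_le_nhds
    exact (continuousAt_const.div continuousAt_id hx0.ne').tendsto
  have h2 : ∀ᶠ z : ℝ in 𝓝[<] x, ⌊θ / z⌋ = ⌊θ / x⌋ := by
    have h3 : ∀ᶠ z : ℝ in 𝓝[<] x, θ / z < ⌊θ / x⌋ + 1 := h1.eventually_lt_const (Int.lt_floor_add_one _)
    have h4 : ∀ᶠ z : ℝ in 𝓝[<] x, 0 < z :=
      (eventually_nhdsWithin_of_eventually_nhds (eventually_gt_nhds hx0))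
    filter_upwards [h3, h4, self_mem_nhdsWithin] with z h5 h6 h7
    have h7 : z < x := h7
    rw [Int.floor_eq_iff]
    refine ⟨?_, h5⟩
    have h8 : θ / x ≤ θ / z := div_le_div_of_nonneg_left hθ.le h6 h7.le
    exact (Int.floor_le _).trans h8
  have h3 : Tendsto (fun z : ℝ => θ / z - (⌊θ / x⌋ : ℝ)) (𝓝[<] x) (𝓝 (θ / x - ⌊θ / x⌋)) := h1.sub_const _
  refine h3.congr' ?_
  filter_upwards [h2] with z h5
  rw [Int.fract, h5]

lemma errR_left (a : ℝ →₀ ℂ) (ha : ∀ θ ∈ a.support, 0 < θ ∧ θ ≤ 1) {x : ℝ} (hx0 : 0 < x) :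
    Tendsto (errR a) (𝓝[<] x) (𝓝 (errR a x)) := by
  unfold errR Finsupp.sum
  refine Tendsto.sub ?_ ?_
  · by_cases h : x ≤ 1
    · rw [if_pos h]
      refine tendsto_const_nhds.congr' ?_
      filter_upwards [self_mem_nhdsWithin] with z hz
      have hz : z < x := hz
      rw [if_pos (by linarith)]
    · rw [if_neg h]
      refine tendsto_const_nhds.congr' ?_
      have h2 : ∀ᶠ z : ℝ in 𝓝[<] x, 1 < z :=
        (eventually_nhdsWithin_of_eventually_nhds (eventually_gt_nhds (not_le.mp h)))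
      filter_upwards [h2] with z hz
      rw [if_neg (by linarith)]
  · refine tendsto_finsetSum _ fun θ hθ => ?_
    refine tendsto_const_nhds.mul ?_
    exact (Complex.continuous_ofReal.tendsto _).comp (fract_left (ha θ hθ).1 hx0)

/-- the supremum is attained by every point -/
lemma le_nrm_top (a : ℝ →₀ ℂ) (ha : ∀ θ ∈ a.support, 0 < θ ∧ θ ≤ 1) {σ : ℝ}
    (h : nrm ⊤ σ (errR a) ≠ ⊤) {x : ℝ} (hx0 : 0 < x) :
    ‖errR a x‖ * x ^ σ ≤ (nrm ⊤ σ (errR a)).toReal := by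
  have h1 := ae_le_nrm_top h
  have h2 : Tendsto (fun z => ‖errR a z‖ * z ^ σ) (𝓝[<] x) (𝓝 (‖errR a x‖ * x ^ σ)) := by
    refine (errR_left a ha hx0).norm.mul ?_
    refine Tendsto.mono_left ?_ nhdsWithin_le_nhds
    exact (Real.continuousAt_rpow_const _ _ (Or.inl hx0.ne')).tendsto
  refine le_of_tendsto_of_frequently h2 ?_
  intro h3
  rw [eventually_iff, mem_nhdsLT_iff_exists_Ioo_subset] at h3
  obtain ⟨l, hl, h4⟩ := h3
  have hl : l < x := hl
  have h5 : (volume.restrict (Ioi (0:ℝ))) (Ioo (max l 0) x) = 0 := by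
    refine measure_mono_null ?_ h1
    intro z hz
    have h6 : z ∈ Ioo l x := ⟨(le_max_left _ _).trans_lt hz.1, hz.2⟩
    exact h4 h6
  rw [Measure.restrict_apply measurableSet_Ioo] at h5
  have h6 : Ioo (max l 0) x ∩ Ioi (0:ℝ) = Ioo (max l 0) x := by
    ext z
    simp only [mem_inter_iff, mem_Ioo, mem_Ioi]
    constructor
    · exact fun h => h.1
    · intro h
      exact ⟨h, (le_max_right _ _).trans_lt h.1⟩
  rw [h6, Real.volume_Ioo, ENNReal.ofReal_eq_zero] at h5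
  have h7 : max l 0 < x := max_lt hl hx0
  linarith

/-- the three lower bounds for one zero, all exponents -/
lemma lower_all (hXY : J_XY) (hLB : J_LB) (hLBI : J_LBI) {p : ℝ≥0∞} (hp1 : 1 ≤ p) {σ : ℝ} (h0 : 0 < σ) (h1 : σ < 1)
    (ρ : ℂ) (hρ : riemannZeta ρ = 0) (hρ0 : 0 < ρ.re) (hρ1 : ρ.re < 1) :
    ∃ c : ℝ, 0 < c ∧ ∀ lam : ℝ, 0 < lam → lam ≤ 1 / 2 → ∀ a : ℝ →₀ ℂ, (∀ θ ∈ a.support, lam ≤ θ ∧ θ ≤ 1) →
      (ρ.re < σ → ENNReal.ofReal (c * lam ^ (σ - ρ.re)) ≤ nrm p σ (errR a)) ∧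
      (ρ.re = σ → ENNReal.ofReal (c * Real.log (1 / lam) ^ (-(1 - (p⁻¹).toReal))) ≤ nrm p σ (errR a)) ∧
      (σ < ρ.re → ENNReal.ofReal c ≤ nrm p σ (errR a)) := by
  by_cases hpt : p = ⊤
  · subst hpt
    obtain ⟨c, hc, h2⟩ := hLBI σ h0 h1 ρ hρ hρ0 hρ1
    refine ⟨c, hc, fun lam hl hl1 a ha => ?_⟩
    by_cases hT : nrm ⊤ σ (errR a) = ⊤
    · simp [hT]
    · have ha' : ∀ θ ∈ a.support, 0 < θ ∧ θ ≤ 1 := fun θ hθ => ⟨hl.trans_le (ha θ hθ).1, (ha θ hθ).2⟩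
      have h3 : ∀ y : ℝ, 0 < y → ‖eyR a y‖ ≤ (nrm ⊤ σ (errR a)).toReal * y ^ σ := by
        intro y hy
        have h4 := le_nrm_top a ha' hT (x := 1 / y) (by positivity)
        rw [errR_eq a (by positivity), one_div_one_div, one_div, Real.inv_rpow hy.le] at h4
        have h5 : 0 < y ^ σ := by positivity
        rw [← div_eq_mul_inv, div_le_iff₀ h5] at h4
        exact h4
      obtain ⟨h4, h5, h6⟩ := h2 lam hl hl1 a ha _ h3
      refine ⟨fun h => ?_, fun h => ?_, fun h => ?_⟩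
      · exact ENNReal.ofReal_le_of_le_toReal (h4 h)
      · refine ENNReal.ofReal_le_of_le_toReal ?_
        have := h5 h
        simpa [Real.rpow_neg_one] using this
      · exact ENNReal.ofReal_le_of_le_toReal (h6 h)
  · have hq : 1 ≤ p.toReal := by
      have := ENNReal.toReal_mono hpt hp1
      simpa using this
    obtain ⟨c, hc, h2⟩ := hLB p.toReal σ hq h0 h1 ρ hρ hρ0 hρ1
    refine ⟨c, hc, fun lam hl hl1 a ha => ?_⟩
    have ha' : ∀ θ ∈ a.support, 0 < θ ∧ θ ≤ 1 := fun θ hθ => ⟨hl.trans_le (ha θ hθ).1, (ha θ hθ).2⟩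
    rw [nrm_errR hXY hp1 hpt h0 h1 a ha']
    obtain ⟨h4, h5, h6⟩ := h2 lam hl hl1 a ha
    refine ⟨fun h => ENNReal.ofReal_le_ofReal (h4 h), fun h => ?_, fun h => ENNReal.ofReal_le_ofReal (h6 h)⟩
    rw [ENNReal.toReal_inv, ← one_div]
    exact ENNReal.ofReal_le_ofReal (h5 h)

end Pool.Agent.Q120.NB
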