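import Pool.Agent.Q120.NB.AsmC

set_option autoImplicit false

/-! # Project NB: the assembly -/

namespace Pool.Agent.Q120.NB

open Complex MeasureTheory Filter Topology Set
open scoped ENNReal

/-- the distance, dilations `1/n`, `n ≤ N` -/
noncomputable def D (p : ℝ≥0∞) (σ : ℝ) (N : ℕ) : ℝ≥0∞ := ⨅ a : ℕ → ℂ, nrm p σ (err N a)

/-- the distance, real dilations -/
noncomputable def DR (p : ℝ≥0∞) (σ lam : ℝ) : ℝ≥0∞ :=
  ⨅ a : {a : ℝ →₀ ℂ // ∀ θ ∈ a.support, lam ≤ θ ∧ θ ≤ 1}, nrm p σ (errR a.1)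

lemma DR_le_D (p : ℝ≥0∞) (σ : ℝ) {lam : ℝ} {N : ℕ} (h : lam ≤ 1 / N) : DR p σ lam ≤ D p σ N := by
  unfold D
  refine le_iInf fun a => ?_
  unfold DR
  refine (iInf_le _ (⟨fam N a, fun θ hθ => ⟨h.trans (fam_supp N a θ hθ).1, (fam_supp N a θ hθ).2⟩⟩ :
    {a : ℝ →₀ ℂ // ∀ θ ∈ a.support, lam ≤ θ ∧ θ ≤ 1})).trans ?_
  rw [nrm_congr fun x _ => err_fam N a x]

/-- all jobs together -/
structure Jobs : Prop where
  XY : J_XY
  LB : J_LB
  LBI : J_LBI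
  MEL : J_MEL
  UP : J_UP
  HOL : J_HOL
  SUP : J_SUP
  HO2 : J_HO2

/-- lower bounds for the distances -/
lemma lower_DR (J : Jobs) {p : ℝ≥0∞} (hp1 : 1 ≤ p) {σ : ℝ} (h0 : 0 < σ) (h1 : σ < 1) (ρ : ℂ) (hρ : ρ ∈ zeros) :
    ∃ c : ℝ, 0 < c ∧ ∀ lam : ℝ, 0 < lam → lam ≤ 1 / 2 →
      (ρ.re < σ → ENNReal.ofReal (c * lam ^ (σ - ρ.re)) ≤ DR p σ lam) ∧
      (ρ.re = σ → ENNReal.ofReal (c * Real.log (1 / lam) ^ (-(1 - (p⁻¹).toReal))) ≤ DR p σ lam) ∧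
      (σ < ρ.re → ENNReal.ofReal c ≤ DR p σ lam) := by
  obtain ⟨c, hc, h2⟩ := lower_all J.XY J.LB J.LBI hp1 h0 h1 ρ hρ.1 hρ.2.1 hρ.2.2
  refine ⟨c, hc, fun lam hl hl1 => ⟨fun h => ?_, fun h => ?_, fun h => ?_⟩⟩
  · exact le_iInf fun a => (h2 lam hl hl1 a.1 a.2).1 h
  · exact le_iInf fun a => (h2 lam hl hl1 a.1 a.2).2.1 h
  · exact le_iInf fun a => (h2 lam hl hl1 a.1 a.2).2.2 h

lemma log_small (c e : ℝ) (hc : 0 < c) (he : 0 < e) :
    ∀ᶠ lam : ℝ in 𝓝[>] 0, lam ^ e ≤ c * Real.log (1 / lam) ^ (-(1:ℝ)) := by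
  have h1 : Tendsto (fun lam : ℝ => Real.log lam * lam ^ e) (𝓝[>] 0) (𝓝 0) := tendsto_log_mul_rpow_nhdsGT_zero he
  have h2 : ∀ᶠ lam : ℝ in 𝓝[>] 0, -c < Real.log lam * lam ^ e := h1.eventually_const_lt (by linarith)
  have h3 : ∀ᶠ lam : ℝ in 𝓝[>] 0, lam < 1 := eventually_nhdsWithin_of_eventually_nhds (eventually_lt_nhds one_pos)
  filter_upwards [h2, h3, self_mem_nhdsWithin] with lam h4 h5 h6
  have h6 : 0 < lam := h6
  have h7 : 0 < Real.log (1 / lam) := Real.log_pos (by rw [lt_div_iff₀ h6]; linarith)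
  rw [Real.rpow_neg_one, ← div_eq_mul_inv, le_div_iff₀ h7]
  have h8 : Real.log (1 / lam) = - Real.log lam := by rw [one_div, Real.log_inv]
  rw [h8]
  linarith [mul_comm (Real.log lam) (lam ^ e)]

lemma const_small (c e : ℝ) (hc : 0 < c) (he : 0 < e) : ∀ᶠ lam : ℝ in 𝓝[>] 0, lam ^ e ≤ c := by
  have h1 : Tendsto (fun lam : ℝ => lam ^ e) (𝓝[>] 0) (𝓝 0) := by
    have h2 := (Real.continuousAt_rpow_const 0 e (Or.inr he.le)).tendsto
    rw [Real.zero_rpow he.ne'] at h2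
    exact h2.mono_left nhdsWithin_le_nhds
  exact h1.eventually_le_const hc

/-- lower bound, real dilations -/
theorem DR_lower (J : Jobs) {p : ℝ≥0∞} (hp1 : 1 ≤ p) {σ : ℝ} (h0 : 0 < σ) (h1 : σ < 1) {ε : ℝ} (hε : 0 < ε) :
    ∀ᶠ lam : ℝ in 𝓝[>] 0, ENNReal.ofReal (lam ^ (max 0 (σ - Theta) + ε)) ≤ DR p σ lam := by
  obtain ⟨ρ, hρ, h2⟩ := exists_zero (half_pos hε)
  obtain ⟨c, hc, h3⟩ := lower_DR J hp1 h0 h1 ρ hρ
  have h4 : ∀ᶠ lam : ℝ in 𝓝[>] 0, lam ≤ 1 / 2 :=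
    eventually_nhdsWithin_of_eventually_nhds (eventually_le_nhds (by norm_num))
  have hm : 0 ≤ max 0 (σ - Theta) := le_max_left _ _
  have hm2 : σ - Theta ≤ max 0 (σ - Theta) := le_max_right _ _
  have h5 := const_small c (ε / 2) hc (half_pos hε)
  have h6 := log_small c ε hc hε
  have h7 : ∀ᶠ lam : ℝ in 𝓝[>] 0, lam ≤ Real.exp (-1) :=
    eventually_nhdsWithin_of_eventually_nhds (eventually_le_nhds (Real.exp_pos _))
  filter_upwards [h4, h5, h6, h7, self_mem_nhdsWithin] with lam g1 g2 g3 g4 g5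
  have g5 : 0 < lam := g5
  obtain ⟨k1, k2, k3⟩ := h3 lam g5 g1
  have g6 : lam ≤ 1 := by linarith
  rcases lt_trichotomy ρ.re σ with h | h | h
  · refine le_trans (ENNReal.ofReal_le_ofReal ?_) (k1 h)
    calc lam ^ (max 0 (σ - Theta) + ε) ≤ lam ^ (ε / 2 + (σ - ρ.re)) :=
          Real.rpow_le_rpow_of_exponent_ge g5 g6 (by linarith)
      _ = lam ^ (ε / 2) * lam ^ (σ - ρ.re) := by rw [Real.rpow_add g5]
      _ ≤ c * lam ^ (σ - ρ.re) := by gcongr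
  · refine le_trans (ENNReal.ofReal_le_ofReal ?_) (k2 h)
    have g7 : 1 ≤ Real.log (1 / lam) := by
      rw [one_div, Real.log_inv]
      have := Real.log_le_log g5 g4
      rw [Real.log_exp] at this
      linarith
    calc lam ^ (max 0 (σ - Theta) + ε) ≤ lam ^ ε := Real.rpow_le_rpow_of_exponent_ge g5 g6 (by linarith)
      _ ≤ c * Real.log (1 / lam) ^ (-(1:ℝ)) := g3
      _ ≤ c * Real.log (1 / lam) ^ (-(1 - (p⁻¹).toReal)) := by
        refine mul_le_mul_of_nonneg_left (Real.rpow_le_rpow_of_exponent_le g7 ?_) hc.le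
        have : 0 ≤ (p⁻¹).toReal := ENNReal.toReal_nonneg
        linarith
  · refine le_trans (ENNReal.ofReal_le_ofReal ?_) (k3 h)
    calc lam ^ (max 0 (σ - Theta) + ε) ≤ lam ^ (ε / 2) :=
          Real.rpow_le_rpow_of_exponent_ge g5 g6 (by linarith)
      _ ≤ c := g2

/-- lower bound, dilations `1/n` -/
theorem D_lower (J : Jobs) {p : ℝ≥0∞} (hp1 : 1 ≤ p) {σ : ℝ} (h0 : 0 < σ) (h1 : σ < 1) {ε : ℝ} (hε : 0 < ε) :
    ∀ᶠ N : ℕ in atTop, ENNReal.ofReal ((N : ℝ) ^ (-max 0 (σ - Theta) - ε)) ≤ D p σ N := by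
  have h2 : Tendsto (fun N : ℕ => 1 / (N : ℝ)) atTop (𝓝[>] 0) := by
    refine tendsto_nhdsWithin_iff.mpr ⟨tendsto_one_div_atTop_nhds_zero_nat, ?_⟩
    filter_upwards [eventually_ge_atTop 1] with N hN
    have : (0:ℝ) < N := by exact_mod_cast hN
    simp only [mem_Ioi]
    positivity
  filter_upwards [h2.eventually (DR_lower J hp1 h0 h1 hε), eventually_ge_atTop 1] with N h3 hN
  have hN0 : (0:ℝ) < N := by exact_mod_cast hN
  refine le_trans (le_of_eq ?_) (h3.trans (DR_le_D p σ le_rfl))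
  congr 1
  rw [one_div, Real.inv_rpow hN0.le, ← Real.rpow_neg hN0.le]
  congr 1
  ring

lemma pow_big (C e : ℝ) (he : 0 < e) : ∀ᶠ N : ℕ in atTop, C ≤ (N : ℝ) ^ e :=
  ((tendsto_rpow_atTop he).comp tendsto_natCast_atTop_atTop).eventually_ge_atTop C

/-- upper bound for the Möbius coefficients -/
theorem mob_upper (J : Jobs) {p : ℝ≥0∞} (hp1 : 1 ≤ p) {σ : ℝ} (h0 : Theta < σ) (h1 : σ < 1) {ε : ℝ} (hε : 0 < ε) :
    ∀ᶠ N : ℕ in atTop, nrm p σ (err N (mob N)) ≤ ENNReal.ofReal ((N : ℝ) ^ (-(σ - Theta) + ε)) := by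
  obtain ⟨C, hC, h2⟩ := upper_all J.XY J.MEL J.UP J.HOL J.SUP J.HO2 hp1 h0 h1 (half_pos hε)
  filter_upwards [eventually_ge_atTop 1, pow_big C (ε / 2) (half_pos hε)] with N hN h3
  have hN0 : (0:ℝ) < N := by exact_mod_cast hN
  refine (h2 N hN).trans (ENNReal.ofReal_le_ofReal ?_)
  calc C * (N : ℝ) ^ (Theta - σ + ε / 2) ≤ (N : ℝ) ^ (ε / 2) * (N : ℝ) ^ (Theta - σ + ε / 2) := by gcongr
    _ = (N : ℝ) ^ (-(σ - Theta) + ε) := by
      rw [← Real.rpow_add hN0]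
      congr 1
      ring

/-- upper bound, dilations `1/n` -/
theorem D_upper (J : Jobs) {p : ℝ≥0∞} (hp1 : 1 ≤ p) {σ : ℝ} (h0 : 0 < σ) (h1 : σ < 1) {ε : ℝ} (hε : 0 < ε) :
    ∀ᶠ N : ℕ in atTop, D p σ N ≤ ENNReal.ofReal ((N : ℝ) ^ (-max 0 (σ - Theta) + ε)) := by
  rcases lt_or_ge Theta σ with h | h
  · filter_upwards [mob_upper J hp1 h h1 hε] with N h2
    rw [max_eq_right (by linarith)]
    exact (iInf_le _ (mob N)).trans h2
  · rw [max_eq_left (by linarith)]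
    obtain ⟨-, h3⟩ := chi_fin J.XY hp1 h0 h1 0
    filter_upwards [pow_big (nrm p σ (errR 0)).toReal ε hε] with N h4
    refine (iInf_le _ (0 : ℕ → ℂ)).trans ?_
    rw [(chi_fin J.XY hp1 h0 h1 N).1]
    rw [show -(0:ℝ) + ε = ε by ring]
    exact (ENNReal.le_ofReal_iff_toReal_le h3.ne (by positivity)).mpr h4

/-- upper bound, real dilations -/
theorem DR_upper (J : Jobs) {p : ℝ≥0∞} (hp1 : 1 ≤ p) {σ : ℝ} (h0 : 0 < σ) (h1 : σ < 1) {ε : ℝ} (hε : 0 < ε) :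
    ∀ᶠ lam : ℝ in 𝓝[>] 0, DR p σ lam ≤ ENNReal.ofReal (lam ^ (max 0 (σ - Theta) - ε)) := by
  set m := max 0 (σ - Theta) with hm
  have hm0 : 0 ≤ m := le_max_left _ _
  have h2 : Tendsto (fun lam : ℝ => ⌊1 / lam⌋₊) (𝓝[>] 0) atTop := by
    have h3 : Tendsto (fun lam : ℝ => 1 / lam) (𝓝[>] 0) atTop := by
      simpa only [one_div] using tendsto_inv_nhdsGT_zero (𝕜 := ℝ)
    exact tendsto_nat_floor_atTop.comp h3
  have h4 : ∀ᶠ lam : ℝ in 𝓝[>] 0, lam ≤ 1 / 2 :=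
    eventually_nhdsWithin_of_eventually_nhds (eventually_le_nhds (by norm_num))
  have h5 := const_small ((2:ℝ) ^ (-m)) (ε / 2) (by positivity) (half_pos hε)
  filter_upwards [h2.eventually (D_upper J hp1 h0 h1 (half_pos hε)), h4, h5, self_mem_nhdsWithin] with lam g1 g2 g3 g4
  have g4 : 0 < lam := g4
  have g5 : 2 ≤ 1 / lam := by rw [le_div_iff₀ g4]; linarith
  have g6 : ((⌊1 / lam⌋₊ : ℕ) : ℝ) ≤ 1 / lam := Nat.floor_le (by positivity)
  have g7 : 1 / (2 * lam) ≤ ((⌊1 / lam⌋₊ : ℕ) : ℝ) := by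
    have g8 := Nat.lt_floor_add_one (1 / lam)
    have g9 : 1 / (2 * lam) = (1 / lam) / 2 := by field_simp
    rw [g9]
    linarith
  have hN0 : (0:ℝ) < ((⌊1 / lam⌋₊ : ℕ) : ℝ) := lt_of_lt_of_le (by positivity) g7
  have g8 : lam ≤ 1 / ((⌊1 / lam⌋₊ : ℕ) : ℝ) := by
    rw [le_div_iff₀ hN0, mul_comm, ← le_div_iff₀ g4]
    exact g6
  refine (DR_le_D p σ g8).trans (g1.trans (ENNReal.ofReal_le_ofReal ?_))
  set X : ℝ := ((⌊1 / lam⌋₊ : ℕ) : ℝ) with hX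
  calc X ^ (-m + ε / 2) = X ^ (-m) * X ^ (ε / 2) := by rw [Real.rpow_add hN0]
    _ ≤ (1 / (2 * lam)) ^ (-m) * (1 / lam) ^ (ε / 2) := by
      refine mul_le_mul ?_ ?_ (by positivity) (by positivity)
      · exact Real.rpow_le_rpow_of_nonpos (by positivity) g7 (by linarith)
      · exact Real.rpow_le_rpow hN0.le g6 (by linarith)
    _ = (2:ℝ) ^ m * lam ^ m * lam ^ (-(ε / 2)) := by
      rw [one_div, one_div, Real.inv_rpow (by positivity), Real.inv_rpow g4.le, ← Real.rpow_neg (by positivity),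
        ← Real.rpow_neg g4.le, neg_neg, Real.mul_rpow (by norm_num) g4.le]
    _ ≤ lam ^ (-(ε / 2)) * lam ^ m * lam ^ (-(ε / 2)) := by
      have g9 : (2:ℝ) ^ m ≤ lam ^ (-(ε / 2)) := by
        rw [Real.rpow_neg g4.le, le_inv_comm₀ (by positivity) (by positivity), ← Real.rpow_neg (by norm_num)]
        exact g3
      gcongr
    _ = lam ^ (m - ε) := by
      rw [← Real.rpow_add g4, ← Real.rpow_add g4]
      congr 1
      ring

/-- zero-free half planes -/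
theorem free_iff (J : Jobs) {p : ℝ≥0∞} (hp1 : 1 ≤ p) {θ σ : ℝ} (hθ : 1 / 2 ≤ θ) (h0 : θ < σ) (h1 : σ < 1) :
    List.TFAE [∀ s : ℂ, θ < s.re → riemannZeta s ≠ 0,
      ∀ ε : ℝ, 0 < ε → ∀ᶠ N : ℕ in atTop, D p σ N ≤ ENNReal.ofReal ((N : ℝ) ^ (-(σ - θ) + ε)),
      ∀ ε : ℝ, 0 < ε → ∃ᶠ N : ℕ in atTop, D p σ N ≤ ENNReal.ofReal ((N : ℝ) ^ (-(σ - θ) + ε)),
      ∀ ε : ℝ, 0 < ε → ∃ᶠ lam : ℝ in 𝓝[>] 0, DR p σ lam ≤ ENNReal.ofReal (lam ^ (σ - θ - ε))] := by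
  have hσ0 : 0 < σ := by linarith
  tfae_have 1 → 2 := by
    intro h ε hε
    have h2 : Theta ≤ θ := (Theta_le_iff hθ).mpr h
    filter_upwards [D_upper J hp1 hσ0 h1 hε, eventually_ge_atTop 1] with N h3 hN
    refine h3.trans (ENNReal.ofReal_le_ofReal (Real.rpow_le_rpow_of_exponent_le (by exact_mod_cast hN) ?_))
    have := le_max_right 0 (σ - Theta)
    linarith
  tfae_have 2 → 3 := fun h ε hε => (h ε hε).frequently
  tfae_have 3 → 4 := by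
    intro h ε hε
    have h2 : Tendsto (fun N : ℕ => 1 / (N : ℝ)) atTop (𝓝[>] 0) := by
      refine tendsto_nhdsWithin_iff.mpr ⟨tendsto_one_div_atTop_nhds_zero_nat, ?_⟩
      filter_upwards [eventually_ge_atTop 1] with N hN
      have : (0:ℝ) < N := by exact_mod_cast hN
      simp only [mem_Ioi]
      positivity
    refine h2.frequently (((h ε hε).and_eventually (eventually_ge_atTop 1)).mono ?_)
    rintro N ⟨h3, hN⟩
    have hN0 : (0:ℝ) < N := by exact_mod_cast hN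
    refine (DR_le_D p σ le_rfl).trans (h3.trans (le_of_eq ?_))
    congr 1
    rw [one_div, Real.inv_rpow hN0.le, ← Real.rpow_neg hN0.le]
    congr 1
    ring
  tfae_have 4 → 1 := by
    intro h
    rw [← Theta_le_iff hθ]
    by_contra hno
    have hno : θ < Theta := not_le.mp hno
    -- the exponent is smaller than `σ - θ`
    set m := max 0 (σ - Theta) with hm
    have hm1 : m < σ - θ := max_lt (by linarith) (by linarith)
    have hε : 0 < (σ - θ - m) / 4 := by linarith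
    obtain ⟨lam, h3, h4, h5, h6⟩ := ((h _ hε).and_eventually ((DR_lower J hp1 hσ0 h1 hε).and
      ((eventually_nhdsWithin_of_eventually_nhds (eventually_lt_nhds one_pos)).and self_mem_nhdsWithin))).exists
    have h6 : 0 < lam := h6
    have h5 : lam < 1 := h5
    have h7 := h4.trans h3
    rw [ENNReal.ofReal_le_ofReal_iff (by positivity)] at h7
    have h8 := (Real.rpow_le_rpow_left_iff_of_base_lt_one h6 h5).mp h7
    rw [← hm] at h8
    linarith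
  tfae_finish

/-- the first question -/
theorem q1_iff : (∃ σ0 : ℝ, 1 / 2 < σ0 ∧ σ0 < 1 ∧ ∀ s : ℂ, σ0 ≤ s.re → riemannZeta s ≠ 0) ↔ Theta < 1 := by
  constructor
  · rintro ⟨σ0, h1, h2, h3⟩
    have : Theta ≤ σ0 := (Theta_le_iff h1.le).mpr fun s hs => h3 s hs.le
    linarith
  · intro h
    have := half_le
    refine ⟨(1 + Theta) / 2, by linarith, by linarith, fun s hs => free (by linarith)⟩

theorem q1_tfae (J : Jobs) :
    List.TFAE [∃ σ0 : ℝ, 1 / 2 < σ0 ∧ σ0 < 1 ∧ ∀ s : ℂ, σ0 ≤ s.re → riemannZeta s ≠ 0,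
      ∃ σ δ : ℝ, 0 < σ ∧ σ < 1 ∧ 0 < δ ∧ ∀ p : ℝ≥0∞, 1 ≤ p → ∀ᶠ N : ℕ in atTop,
        D p σ N ≤ ENNReal.ofReal ((N : ℝ) ^ (-δ)),
      ∃ (p : ℝ≥0∞) (σ δ : ℝ), 1 ≤ p ∧ 0 < σ ∧ σ < 1 ∧ 0 < δ ∧ ∃ᶠ N : ℕ in atTop,
        D p σ N ≤ ENNReal.ofReal ((N : ℝ) ^ (-δ)),
      ∃ (p : ℝ≥0∞) (σ δ : ℝ), 1 ≤ p ∧ 0 < σ ∧ σ < 1 ∧ 0 < δ ∧ ∃ᶠ lam : ℝ in 𝓝[>] 0,
        DR p σ lam ≤ ENNReal.ofReal (lam ^ δ)] := by
  tfae_have 1 → 2 := by
    intro h
    have h2 : Theta < 1 := q1_iff.mp h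
    have h3 := half_le
    refine ⟨(1 + Theta) / 2, (1 - Theta) / 4, by linarith, by linarith, by linarith, fun p hp1 => ?_⟩
    filter_upwards [D_upper J hp1 (σ := (1 + Theta) / 2) (by linarith) (by linarith)
      (show 0 < (1 - Theta) / 4 by linarith), eventually_ge_atTop 1] with N h4 hN
    refine h4.trans (ENNReal.ofReal_le_ofReal (Real.rpow_le_rpow_of_exponent_le (by exact_mod_cast hN) ?_))
    have := le_max_right 0 ((1 + Theta) / 2 - Theta)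
    linarith
  tfae_have 2 → 3 := by
    rintro ⟨σ, δ, h0, h1, hδ, h⟩
    exact ⟨1, σ, δ, le_rfl, h0, h1, hδ, (h 1 le_rfl).frequently⟩
  tfae_have 3 → 4 := by
    rintro ⟨p, σ, δ, hp1, h0, h1, hδ, h⟩
    refine ⟨p, σ, δ, hp1, h0, h1, hδ, ?_⟩
    have h2 : Tendsto (fun N : ℕ => 1 / (N : ℝ)) atTop (𝓝[>] 0) := by
      refine tendsto_nhdsWithin_iff.mpr ⟨tendsto_one_div_atTop_nhds_zero_nat, ?_⟩
      filter_upwards [eventually_ge_atTop 1] with N hN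
      have : (0:ℝ) < N := by exact_mod_cast hN
      simp only [mem_Ioi]
      positivity
    refine h2.frequently ((h.and_eventually (eventually_ge_atTop 1)).mono ?_)
    rintro N ⟨h3, hN⟩
    have hN0 : (0:ℝ) < N := by exact_mod_cast hN
    refine (DR_le_D p σ le_rfl).trans (h3.trans (le_of_eq ?_))
    congr 1
    rw [one_div, Real.inv_rpow hN0.le, ← Real.rpow_neg hN0.le]
  tfae_have 4 → 1 := by
    rintro ⟨p, σ, δ, hp1, h0, h1, hδ, h⟩
    rw [q1_iff]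
    by_contra hno
    have hno : 1 ≤ Theta := not_lt.mp hno
    obtain ⟨lam, h3, h4, h5, h6⟩ := (h.and_eventually ((DR_lower J hp1 h0 h1 (half_pos hδ)).and
      ((eventually_nhdsWithin_of_eventually_nhds (eventually_lt_nhds one_pos)).and self_mem_nhdsWithin))).exists
    have h6 : 0 < lam := h6
    have h5 : lam < 1 := h5
    have h7 := h4.trans h3
    rw [ENNReal.ofReal_le_ofReal_iff (by positivity)] at h7
    have h8 := (Real.rpow_le_rpow_left_iff_of_base_lt_one h6 h5).mp h7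
    rw [max_eq_left (by linarith)] at h8
    linarith
  tfae_finish

end Pool.Agent.Q120.NB
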