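import Pool.Agent.Q120.NB.Stm2
import Pool.Agent.Q286.BD.Spec

set_option autoImplicit false

/-!
# Project NC: the critical weight `σ = 1/2` in `L^p`

THEOREM. `1 < p < ∞`. RH holds iff the distance `D_{p,1/2}(N)` (norm `(∫ |f|^p x^(p/2-1) dx)^(1/p)`) of `χ` to the span of the
`{1/(n x)}`, `n ≤ N`, has the exact order `(log N)^(-(1-1/p))`, iff it tends to `0`. The lower bound is `J_LB`, `J_LBI` (project
NB); the upper bound under RH comes from the mollifier of project BD (`Pool/Agent/Q286/BD`) with better exponents, a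
Hausdorff-Young inequality for `p > 2` and Hölder's inequality for `p < 2`.

Notation of project BD (`Pool/Agent/Q286/BD/Spec.lean`): `cl t = 1/2 + i t`, `A φ L s = ∑_{n ≤ e^L} μ(n) V(log n / L) n^(-s)`.
-/

namespace Pool.Agent.Q120.NB

open Complex MeasureTheory Filter Topology Set
open Pool.Agent.Q286.BD (cl A Wt V)

/-- JOB DEC (1 h): `Pool/Agent/Q296/BD/{Ib,Pt,Dec}.lean` (theorem `dec`, the case `m = 16`: abscissa `Λ/16`, range `e^(10 L)`,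
exponent `3/8`) with an arbitrary `m ≥ 16` in place of `16`: abscissa `Λ/m`, range `|t| ≤ e^((m-6) L)` (so that `Λ ≤ m L`),
`ratio_bound` with `exp(Λ/m + ...)` (`32` becomes `2 m`, `18` becomes `2 + m`), `pt` with the exponent `4/m`, `dec` with `6/m`.
Copy the three files and replace the numbers. The hypotheses are the theorems `ratio`, `lowb`, `upz`, `perRH`, `hh` of
`Pool/Agent/Q286/BD/All.lean`. -/
def J_DEC : Prop := ∀ m : ℝ, 16 ≤ m → RiemannHypothesis → ∃ β0 : ℝ, 0 < β0 ∧ β0 < 1 ∧ ∀ β : ℝ, β0 < β → β < 1 →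
  ∀ φ : ℝ → ℝ, Wt β φ → ∃ C L0 : ℝ, 0 < C ∧ 1 ≤ L0 ∧ ∀ L : ℝ, L0 ≤ L → ∀ t d : ℝ, |t| ≤ Real.exp ((m - 6) * L) →
  0 < d → d ≤ 1 → (∀ g : ℝ, riemannZeta (cl g) = 0 → d ≤ |g - t|) →
  ‖riemannZeta (cl t) * A φ L (cl t) - 1‖ ≤ C * (1 + |t|) ^ (6 / m) / (1 + L * d)

/-- JOB CO (0.8 h, uses `J_DEC`): the coefficients. `a_n = -μ(n) V(log n / L)`, `L = log N` (`⌊e^L⌋ = N`), with a weight `φ`,
`Wt β φ` (exists for every `β < 1`: `cost` in `Q286/BD/All.lean`, `m = 1`); `|V| ≤ ∫ |φ|` (`V_abs_le` in `Q149/BD/U1.lean`).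
For `log N < L0` take `a = 0`. Last part: `|ζ(1/2+it)| ≤ C (1+|t|)^(6/m)` under RH (`upz`, `zeta_growth` in `Q149/BD/U2.lean` or
directly from `ML t = log / log log`) and `∑_{n ≤ N} |a_n| n^(-1/2) ≤ C N`. -/
def J_CO : Prop := RiemannHypothesis → ∀ m : ℝ, 16 ≤ m → ∃ C : ℝ, 0 < C ∧ ∀ N : ℕ, 2 ≤ N → ∃ a : ℕ → ℂ,
  (∀ n, ‖a n‖ ≤ C) ∧
  (∀ t d : ℝ, |t| ≤ (N : ℝ) ^ (m - 6) → 0 < d → d ≤ 1 → (∀ g : ℝ, riemannZeta (cl g) = 0 → d ≤ |g - t|) →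
    ‖1 + riemannZeta (cl t) * ∑ n ∈ Finset.Icc 1 N, a n * (n : ℂ) ^ (-cl t)‖ ≤
      C * (1 + |t|) ^ (6 / m) / (1 + Real.log N * d)) ∧
  (∀ t : ℝ, ‖1 + riemannZeta (cl t) * ∑ n ∈ Finset.Icc 1 N, a n * (n : ℂ) ^ (-cl t)‖ ≤
    C * N * (1 + |t|) ^ (6 / m))

/-- JOB HY (1.5 h, pure analysis): a Hausdorff-Young inequality, `p > 2`, `q = p/(p-1)`, `v` bounded and integrable.
Proof (Marcinkiewicz). Let `G` be the transform of `v`, `Q = ∫ |G|^q`. For `s > 0` let `v₁` be the inverse transform of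
`G 1[|G| > s]` (in `L¹`), `|v₁| ≤ (1/2π) ∫_{|G|>s} |G| ≤ s^(1-q) Q`, and `v₂ = v - v₁`, `‖v₂‖₂² = (1/2π) ∫_{|G| ≤ s} |G|²`
(Plancherel). For `λ > 0` choose `s` with `s^(1-q) Q = λ/2`, so that `{|v| > λ} ⊆ {|v₂| > λ/2}` has measure at most
`4 λ^(-2) ∫_{|G| ≤ s} |G|²`, and `∫ |v|^p = ∫_0^∞ p λ^(p-1) |{|v|>λ}| dλ ≤ C ∫ |G|² ∫_{λ ≤ 2 Q |G|^(1-q)} λ^(p-3) dλ = C' Q^(p-1)`.
To have Plancherel for `v₂` only for integrable functions one may first treat `v * K_T`, `K_T` the Fejér kernel (transform with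
compact support, Fourier inversion holds), and let `T → ∞` (Fatou); or use the `L²` theory of Mathlib.
A relative: `Pool/Agent/TH941/FN/HY.lean` (theorem `hy`, `ft_sq`). -/
def J_HY : Prop := ∀ p : ℝ, 2 < p → ∃ C : ℝ, 0 < C ∧ ∀ v : ℝ → ℂ, Measurable v → Integrable v →
  (∃ B : ℝ, ∀ x, ‖v x‖ ≤ B) → Integrable (fun t : ℝ => ‖∫ x : ℝ, v x * cexp (-(t * x * I))‖ ^ (p / (p - 1))) →
  ∫ x : ℝ, ‖v x‖ ^ p ≤ C * (∫ t : ℝ, ‖∫ x : ℝ, v x * cexp (-(t * x * I))‖ ^ (p / (p - 1))) ^ (p - 1)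

/-- JOB ZI (1 h): integration over the line. `S_cnt` (`cnt` in `Q286/BD/All.lean`): the number of the ordinates `g` of the zeros on the
line in `[T, T+1]` is `≤ K0 log(|T|+2)`. Proof: with `d(t) = min 1 (dist(t, zeros))` (positive off the countable closed set of
the ordinates) `(1+L d)^(-q) ≤ L^(-1) + ∑_{|g-t| ≤ 1} (1+L|g-t|)^(-q)`; integrate term by term:
`∫ (1+L|t-g|)^(-q) dt = 2/((q-1) L)`, and `∑_g (1+|g|)^(-q(1-κ)) < ∞`. (A relative: `Q202/BD/Asm.lean`, `sum_G`, `cover`.) -/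
def J_ZI : Prop := ∀ q κ : ℝ, 1 < q → 0 < κ → 1 < q * (1 - κ) → ∃ C : ℝ, 0 < C ∧ ∀ L : ℝ, 1 / 2 ≤ L → ∀ H : ℝ → ℝ,
  Measurable H → (∀ t, 0 ≤ H t) →
  (∀ t d : ℝ, 0 < d → d ≤ 1 → (∀ g : ℝ, riemannZeta (cl g) = 0 → d ≤ |g - t|) →
    H t ≤ (1 + |t|) ^ (κ - 1) / (1 + L * d)) →
  Integrable (fun t : ℝ => H t ^ q) ∧ ∫ t : ℝ, H t ^ q ≤ C / L

/-- JOB PB (1 h, uses `J_CO`, `J_HY`, `J_ZI`): `p > 2`. Proof: `v(x) = u(e^x) e^(-x/2)`, `u = ey N a`, `a` from `J_CO` with `m` large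
(depending on `p`); `v` is bounded and integrable, `∫ |v|^p = ny p (1/2) u ^ p`, and its transform is
`(1 + ζ(s) ∑ a_n n^(-s)) / s`, `s = 1/2 + it` (`ey_mel` in `Q211/NB/SUP.lean` or `four_eq` in `Q129/NB/Mel.lean`). `J_ZI` with
`κ = 6/m` for `|t| ≤ N^(m-6)` gives `C / log N`, the rest is at most `C N^q ∫_{|t| > N^(m-6)} (1+|t|)^(q(6/m-1)) dt ≤ C / log N` for `m`
large. So `‖v‖_p^p ≤ C (log N)^(-(p-1))`. -/
def J_PB : Prop := RiemannHypothesis → ∀ p : ℝ, 2 < p → ∃ C : ℝ, 0 < C ∧ ∀ N : ℕ, 2 ≤ N → ∃ a : ℕ → ℂ,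
  ny p (1 / 2) (ey N a) ≤ C * Real.log N ^ (-(1 - 1 / p))

/-- JOB PS (1 h, uses `J_CO`, `J_ZI`, `J_MEL`): `1 ≤ p ≤ 2`. Proof: `u = ey N a`, `a` from `J_CO` with `m = 16`;
`∫ |u|² y^(-2) dy ≤ C / log N` by `J_MEL` (`σ = 1/2`) and `J_ZI` (`q = 2`, `κ = 3/8`; the part `|t| > N^10` is trivial). For `y < 1`:
`u(y) = y μ`, `|μ|² = ∫_0^1 |u|² y^(-2) dy ≤ C / log N`, so this part of `∫ |u|^p y^(-p/2-1)` is `≤ C (log N)^(-p/2) ≤ C' (log N)^(1-p)`.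
`1 ≤ y ≤ N^3`: Hölder, `≤ (∫ |u|² y^(-2))^(p/2) (3 log N)^(1-p/2)`. `y > N^3`: `|u| ≤ 1 + C N`, the integral is `≤ C N^(-p/2)`. -/
def J_PS : Prop := RiemannHypothesis → ∀ p : ℝ, 1 ≤ p → p ≤ 2 → ∃ C : ℝ, 0 < C ∧ ∀ N : ℕ, 2 ≤ N → ∃ a : ℕ → ℂ,
  ny p (1 / 2) (ey N a) ≤ C * Real.log N ^ (-(1 - 1 / p))

end Pool.Agent.Q120.NB
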