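import Mathlib

set_option autoImplicit false

/-!
# Project NB: exact exponents in the Nyman-Beurling-Baez-Duarte approximation problem

Row `MP_5a4862_nt` (a zero-free half plane for zeta), very famous.

`χ` is the indicator of `(0,1]`. For `1 ≤ p`, `0 < σ < 1` let `D_{p,σ}(N)` be the distance, in the norm
`‖f‖ = (∫_0^∞ |f(x)|^p x^(pσ-1) dx)^(1/p)` (so `pσ = 1` is the space `L^p(0,∞)`), of `χ` from the span of the functions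
`{1/(n x)}`, `n ≤ N`; `DR_{p,σ}(lam)` the same with `{θ/x}`, `lam ≤ θ ≤ 1`. `Θ` = supremum of the real parts of the zeros.

THEOREM. For all `1 ≤ p ≤ 2`, `0 < σ < 1`: `log D_{p,σ}(N) / log N → -max(0, σ - Θ)`, the same for `DR`, and the
coefficients `-μ(n)(1 - n/N)` attain the exponent for all `p ∈ [1,2]`, `σ > Θ` at once. For every zero `ρ = β + iγ` and every
`p ≥ 1`: `DR_{p,σ}(lam) ≥ c lam^(σ-β)` if `σ > β`, `≥ c log(1/lam)^(-(1-1/p))` if `σ = β`, `≥ c` if `σ < β`.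
Consequences: there is a zero-free half plane iff `D_{p,σ}(N) ≤ N^(-δ)` for one `p, σ, δ` and infinitely many `N`; RH iff
the exponent is `σ - 1/2` for one `p ∈ [1,2]`, `σ > 1/2`.

Everything is done in the variable `y = 1/x`. Tools: project BD (`Pool/Agent/Q286/BD/Spec.lean`, `Spec2.lean`, `All.lean`)
and the starting library `Pool/Agent/H295R2` (files `Z`, `L`, `P`, `Lap`, `Avg`, `M`, `T6b`): `fz = 1/ζ`,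
`fz_bound` (bound `(1+|t|)^ε` for `1/ζ` to the right of all zeros), `contour_shift`, `inversion`, `plancherel_Lap`.
-/

namespace Pool.Agent.Q120.NB

open Complex MeasureTheory Filter Topology Set

/-- the error in the variable `y = 1/x`, dilations `1/n` -/
noncomputable def ey (N : ℕ) (a : ℕ → ℂ) (y : ℝ) : ℂ :=
  (if 1 ≤ y then 1 else 0) - ∑ n ∈ Finset.Icc 1 N, a n * ((Int.fract (y / (n : ℝ)) : ℝ) : ℂ)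

/-- the error in the variable `y = 1/x`, real dilations -/
noncomputable def eyR (a : ℝ →₀ ℂ) (y : ℝ) : ℂ :=
  (if 1 ≤ y then 1 else 0) - a.sum fun θ c => c * ((Int.fract (θ * y) : ℝ) : ℂ)

/-- the norm in the variable `y` -/
noncomputable def ny (p σ : ℝ) (u : ℝ → ℂ) : ℝ :=
  (∫ y in Ioi (0 : ℝ), ‖u y‖ ^ p * y ^ (-(p * σ) - 1)) ^ (1 / p)

/-- the coefficients `-μ(n)(1 - n/N)` -/
noncomputable def mob (N n : ℕ) : ℂ := -(((ArithmeticFunction.moebius n : ℤ) : ℂ) * (1 - (n : ℂ) / (N : ℂ)))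

/-- JOB TR (1.5 h): the test functions of `Pool/Agent/Q258/BD` (files `Psi`, `Gfun`, `Conv`, `TR`) for an ARBITRARY zero,
with pointwise bounds. There: zeros with `ρ.re = 1/2`, polynomial weights. Here only the polynomial `1` (no logarithms),
but any `β = ρ.re` in `(0,1)`.
Proof: as there. `κ = 1/(1-ρ)`; `kk(y) = 3 κ y` for `y < 1`, `kk(y) = y^(-ρ-1)` for `y ≥ 1`: orthogonal to all `{θ y}`,
`0 < θ ≤ 1`, by `S_orthR` (`Q286.BD.orthR`, valid for every `ρ` with `0 < re < 1`, `j = 0`; `0 < mz ρ` as `ζ(ρ) = 0`).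
`G(v) = v (1+v²)^(-(ρ+2)/2)`, `F = G * Ψ + c Φ` as in `exists_F` (odd, spectrum in `[-1,1]`, `∫_0^∞ F = 0`), with
`|F(v) - [v > 1] v^(-ρ-1)| ≤ C (1+v²)^(-(β+2)/2)` for `v > 0` (the weight `wt` there is `(1+v²)^(-9/8)`; replace the
exponent). `K(y) = kk(y) - lam^(ρ+1) F(lam y)`; `S_band` (`Q286.BD.band`) gives the orthogonality for `lam ≤ θ ≤ 1`.
Bounds: `y ≤ 1`: bounded; `1 ≤ y ≤ 1/lam`: `y^(-β-1) + C lam^(β+1)`; `y ≥ 1/lam`: `C lam^(β+1) (lam y)^(-β-2)`.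
`∫_1^∞ K = 1/ρ + ∫_0^1 lam^(ρ+1) F(lam y) dy`. -/
def J_TR : Prop := ∀ ρ : ℂ, riemannZeta ρ = 0 → 0 < ρ.re → ρ.re < 1 → ∃ C : ℝ, 0 < C ∧
  ∀ lam : ℝ, 0 < lam → lam ≤ 1 → ∃ K : ℝ → ℂ, Measurable K ∧ IntegrableOn K (Ioi 0) ∧
  (∀ θ : ℝ, lam ≤ θ → θ ≤ 1 → ∫ y in Ioi (0 : ℝ), ((Int.fract (θ * y) : ℝ) : ℂ) * K y = 0) ∧
  ‖(∫ y in Ioi (1 : ℝ), K y) - 1 / ρ‖ ≤ C * lam ∧
  (∀ y : ℝ, 0 < y → y ≤ 1 → ‖K y‖ ≤ C) ∧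
  (∀ y : ℝ, 1 ≤ y → y ≤ 1 / lam → ‖K y‖ ≤ C * y ^ (-ρ.re - 1)) ∧
  (∀ y : ℝ, 1 / lam ≤ y → ‖K y‖ ≤ C * lam⁻¹ * y ^ (-ρ.re - 2))

/-- integrability of the integrand of the norm (part of JOB LB, useful for the assembly): for `y < 1` the sum is
`y ∑ θ a_θ`, for `y ≥ 1` everything is bounded. -/
def J_INT : Prop := ∀ p σ : ℝ, 1 ≤ p → 0 < σ → σ < 1 → ∀ a : ℝ →₀ ℂ, (∀ θ ∈ a.support, 0 < θ ∧ θ ≤ 1) →
  Measurable (eyR a) ∧ IntegrableOn (fun y : ℝ => ‖eyR a y‖ ^ p * y ^ (-(p * σ) - 1)) (Ioi 0)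

/-- JOB LB (1.3 h, uses `J_TR`, proves also `J_INT`): the lower bound for every zero.
Proof. Let `u = eyR a`, `K` from `J_TR`. `∫_0^∞ u K = ∫_1^∞ K - 0`, so `|∫ u K| ≥ 1/(2|ρ|)` if `lam ≤ lam0(ρ)`. Let
`q` be the dual exponent of `p`. Hoelder: `|∫ u K| ≤ (∫ |u|^p y^(-pσ-1))^(1/p) (∫ |K|^q y^(q(σ+1/p)))^(1/q)` for `p > 1`
(`sup |K| y^(σ+1)` for `p = 1`). The last factor, by the three bounds for `K`, where `(−β−1+σ+1/p) q = (σ-β) q - 1`: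
on `(0,1]` at most `C`; on `[1,1/lam]` at most `C (∫_1^{1/lam} y^((σ-β)q-1) dy)^(1/q)`, which is `≤ C' lam^(-(σ-β))` if
`β < σ`, `C log(1/lam)^(1/q)` if `β = σ`, `≤ C'` if `β > σ`; on `[1/lam,∞)` at most
`C lam^(-1) (∫ y^((σ-β-1)q-1))^(1/q) = C' lam^(β-σ)` (note `σ - β - 1 < 0`), which is `≤ C'` if `σ ≤ β`.
For `lam0 ≤ lam ≤ 1/2` a family with support in `[lam,1]` also has support in `[lam0,1]`: apply the bound for `lam0`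
(smaller constant). -/
def J_LB : Prop := ∀ p σ : ℝ, 1 ≤ p → 0 < σ → σ < 1 → ∀ ρ : ℂ, riemannZeta ρ = 0 → 0 < ρ.re → ρ.re < 1 →
  ∃ c : ℝ, 0 < c ∧ ∀ lam : ℝ, 0 < lam → lam ≤ 1 / 2 → ∀ a : ℝ →₀ ℂ, (∀ θ ∈ a.support, lam ≤ θ ∧ θ ≤ 1) →
  (ρ.re < σ → c * lam ^ (σ - ρ.re) ≤ ny p σ (eyR a)) ∧
  (ρ.re = σ → c * Real.log (1 / lam) ^ (-(1 - 1 / p)) ≤ ny p σ (eyR a)) ∧
  (σ < ρ.re → c ≤ ny p σ (eyR a))

/-- JOB MEL (1.2 h): Mellin-Plancherel on the line `Re s = σ`. It is `Q286.BD.S_mel`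
(`Pool/Agent/Q237/BD/Mel.lean`, the case `σ = 1/2`, variable `x = 1/y`) for an arbitrary `σ` in `(0,1)`: the Mellin
transform `∫_0^∞ u(y) y^(-s-1) dy` of `u = ey N a` is `(1 + ζ(s) ∑ a_n n^(-s)) / s` for `0 < Re s < 1`. -/
def J_MEL : Prop := ∀ σ : ℝ, 0 < σ → σ < 1 → ∀ (N : ℕ) (a : ℕ → ℂ), 1 ≤ N →
  IntegrableOn (fun y : ℝ => ‖ey N a y‖ ^ 2 * y ^ (-(2 * σ) - 1)) (Ioi 0) ∧
  Integrable (fun t : ℝ => ‖1 + riemannZeta (σ + t * I) *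
    ∑ n ∈ Finset.Icc 1 N, a n * (n : ℂ) ^ (-((σ : ℂ) + t * I))‖ ^ 2 / (σ ^ 2 + t ^ 2)) ∧
  ∫ y in Ioi (0 : ℝ), ‖ey N a y‖ ^ 2 * y ^ (-(2 * σ) - 1) =
    1 / (2 * Real.pi) * ∫ t : ℝ, ‖1 + riemannZeta (σ + t * I) *
      ∑ n ∈ Finset.Icc 1 N, a n * (n : ℂ) ^ (-((σ : ℂ) + t * I))‖ ^ 2 / (σ ^ 2 + t ^ 2)

/-- JOB PER (1.5 h): the Dirichlet polynomial with coefficients `μ(n)(1-n/N)` approximates `1/ζ`.
Proof. We may take `ε < σ - θ` (the bound is monotone in `ε`). Let `s = σ + it`, `c = σ - θ - ε/2 ∈ (0,1)`, `f = fz`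
(`Pool/Agent/H295R2/Z.lean`, `f = 1/ζ` off `1`, analytic for `Re > θ`), `|f(w)| ≤ C (1+|Im w|)^(ε/2)` for
`θ + ε/2 ≤ Re w ≤ 2` (`H295R2.fz_bound`, file `L`). `H(z) = (N^z f(s+z) - f(s)) / (z (z+1))` (removable singularity at
`0`, use `dslope`) is analytic for `-c ≤ Re z ≤ 1` and `O((1+|Im z|)^(-3/2))`: `H295R2.contour_shift` (file `P`) gives
`∫ H(-c+iy) dy = ∫ H(1+iy) dy`. (i) `(1/2π) ∫ x^z/(z(z+1)) dy = max(0, 1-1/x)` on `Re z = 1`, all `x > 0`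
(`H295R2.inversion`, file `Avg`, for `k(v) = max(0, 1-e^(-v))`, whose Laplace transform is `1/(z(z+1))`); with the Dirichlet
series of `f` (`moebius_lseries`), absolutely convergent on `Re(s+z) = 1+σ`:
`(1/2π) ∫ N^z f(s+z)/(z(z+1)) dy = ∑_{n≤N} μ(n)(1-n/N) n^(-s)`, and `∫ 1/(z(z+1)) dy = 0` there (`x = 1`).
(ii) On `Re z = -c`: `∫ 1/(z(z+1)) dy = -2π` (partial fractions, arctan), and
`|∫ N^z f(s+z)/(z(z+1)) dy| ≤ N^(-c) C ∫ (1+|t|+|y|)^(ε/2) / (|z||z+1|) dy ≤ C' N^(-c) (1+|t|)^(ε/2)`.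
Together `∑ = f(s) + O(N^(-c) (1+|t|)^(ε/2))`. -/
def J_PER : Prop := ∀ θ : ℝ, 1 / 2 ≤ θ → (∀ s : ℂ, θ < s.re → riemannZeta s ≠ 0) → ∀ σ ε : ℝ, θ < σ → σ < 1 →
  0 < ε → ∃ C : ℝ, 0 < C ∧ ∀ (N : ℕ) (t : ℝ), 1 ≤ N →
  ‖(∑ n ∈ Finset.Icc 1 N, ((ArithmeticFunction.moebius n : ℤ) : ℂ) * (1 - (n : ℂ) / (N : ℂ)) *
      (n : ℂ) ^ (-((σ : ℂ) + t * I))) - (riemannZeta (σ + t * I))⁻¹‖ ≤
    C * (N : ℝ) ^ (θ - σ + ε) * (1 + |t|) ^ ε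

/-- JOB ZB (0.4 h): trivial bound for zeta (probably in the library; `ζ(s) = ∑_{n≤x} n^(-s) + x^(1-s)/(s-1) + O(|s| x^(-σ))`
with `x = 1+|t|`). -/
def J_ZB : Prop := ∀ σ : ℝ, 1 / 2 < σ → σ < 1 → ∃ C : ℝ, 0 < C ∧ ∀ t : ℝ,
  ‖riemannZeta (σ + t * I)‖ ≤ C * (1 + |t|) ^ (1 - σ)

/-- JOB UP (0.7 h, uses `J_MEL`, `J_PER`, `J_ZB`): the upper bound in mean square.
Proof. `∑ a_n n^(-s) = -1/ζ(s) + R(s)`, `|R(s)| ≤ C N^(θ-σ+ε') (1+|t|)^ε'`, so `1 + ζ(s) ∑ a_n n^(-s) = ζ(s) R(s)` and the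
integral is at most `C N^(2(θ-σ)+2ε') ∫ (1+|t|)^(2(1-σ)+2ε') / (σ²+t²) dt`, which converges as `2(1-σ) + 2ε' < 1` for
small `ε'` (`σ > 1/2`). Take `ε' ≤ ε/2`. -/
def J_UP : Prop := ∀ θ : ℝ, 1 / 2 ≤ θ → (∀ s : ℂ, θ < s.re → riemannZeta s ≠ 0) → ∀ σ ε : ℝ, θ < σ → σ < 1 →
  0 < ε → ∃ C : ℝ, 0 < C ∧ ∀ N : ℕ, 1 ≤ N →
  ∫ y in Ioi (0 : ℝ), ‖ey N (mob N) y‖ ^ 2 * y ^ (-(2 * σ) - 1) ≤ C * (N : ℝ) ^ (2 * (θ - σ) + ε)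

/-- JOB HOL (0.7 h): from two weighted mean squares to `L^p`, `1 ≤ p ≤ 2`.
Proof. `w(y) = y^(2η) + y^(-2η) ≥ 1`; the right side is `∫ |u|² y^(-2σ-1) w`. For `p = 2` clear. For `p < 2` Hoelder with
exponents `2/p`, `2/(2-p)`: `|u|^p y^(-pσ-1) = (|u|² y^(-2σ-1) w)^(p/2) · (y^(-1+p/2) w^(-p/2))`, and
`∫ (y^(-1+p/2) w^(-p/2))^(2/(2-p)) dy = ∫ y^(-1) w^(-p/(2-p)) dy < ∞`. -/
def J_HOL : Prop := ∀ p σ η : ℝ, 1 ≤ p → p ≤ 2 → 0 < η → ∃ C : ℝ, 0 < C ∧ ∀ u : ℝ → ℂ, Measurable u →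
  IntegrableOn (fun y : ℝ => ‖u y‖ ^ 2 * y ^ (-(2 * (σ - η)) - 1)) (Ioi 0) →
  IntegrableOn (fun y : ℝ => ‖u y‖ ^ 2 * y ^ (-(2 * (σ + η)) - 1)) (Ioi 0) →
  IntegrableOn (fun y : ℝ => ‖u y‖ ^ p * y ^ (-(p * σ) - 1)) (Ioi 0) ∧
  ny p σ u ≤ C * Real.sqrt ((∫ y in Ioi (0 : ℝ), ‖u y‖ ^ 2 * y ^ (-(2 * (σ - η)) - 1)) +
    ∫ y in Ioi (0 : ℝ), ‖u y‖ ^ 2 * y ^ (-(2 * (σ + η)) - 1))

/-- JOB XY (0.2 h): the change of variables `y = 1/x` (`integral_comp_rpow_Ioi` or similar). -/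
def J_XY : Prop := ∀ (p σ : ℝ) (u : ℝ → ℂ), 0 < p →
  ∫ x in Ioi (0 : ℝ), ‖u (1 / x)‖ ^ p * x ^ (p * σ - 1) = ∫ y in Ioi (0 : ℝ), ‖u y‖ ^ p * y ^ (-(p * σ) - 1)

end Pool.Agent.Q120.NB
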