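import Pool.Agent.Q120.NB.Stm

set_option autoImplicit false

/-!
# Project NB, second part: the exponents `p > 2` and `p = ∞`

With the pointwise bound `SUP` the law `log D_{p,σ}(N) / log N → -max(0, σ - Θ)` holds for ALL `1 ≤ p ≤ ∞`.
-/

namespace Pool.Agent.Q120.NB

open Complex MeasureTheory Filter Topology Set

/-- JOB SUP (1.5 h, uses `J_PER`, `J_UP` and the Mellin transform of JOB MEL): the pointwise bound.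
Proof. `u = ey N (mob N)`, `a_n = mob N n`. For `y < 1`: `u(y) = y m` with `m = ∑ μ(n)(1-n/N)/n`, and
`m² ∫_0^1 y^(1-2σ') dy ≤ C N^(2(θ-σ')+ε)` by `J_UP` for `σ' < 1`; take `σ' ≥ σ`: `|u(y)| ≤ C' N^(θ-σ+ε) y^σ`.
For `y ≥ N^(3/σ)`: `|u| ≤ 1 + N ≤ 2 N^(θ-σ) y^σ`. For `1 ≤ y ≤ N^(3/σ)`: `u` is linear with slope `m` between consecutive
integers, with a jump `[k = 1] + ∑_{n | k} a_n` at the integer `k`; for `1 < k ≤ N` the jump is `(1/N) ∑_{n | k} n μ(n)`, of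
absolute value `≤ k/N`, for `k > N` at most `d(k) ≤ C k^ε' `. Let `h = N^(-K)`, `K` large, so that `(y, y e^(2h)]` contains at
most one integer; let `U(y) = h^(-2) ∫_0^h ∫_0^h u(y e^(v+w)) dv dw`. Then `|u(y) - U(y)| ≤ 2|m| y h + C (y+1)^ε' min(1, 2y/N)`
`≤ C N^(θ-σ+ε) y^σ` (as `y^(1-σ)/N ≤ N^(-σ)` for `1 ≤ y ≤ N`; for `y > N`: `y^(ε'-σ) ≤ N^(ε'-σ)`). `U(e^v) e^(-σ v)` is
continuous and integrable with the integrable Fourier transform `((e^(sh)-1)/(sh))² (1+ζ(s)A(s))/s` on `Re s = σ`, `A = ∑ a_n n^(-s)`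
(Mellin transform of JOB MEL; `|1+ζA| = |ζ(s) R(s)| ≤ C |ζ(s)| N^(θ-σ+ε') (1+|t|)^ε'` by `J_PER`), so by Fourier inversion
`|U(y)| ≤ y^σ (1/2π) ∫ |ζ(s)| |R(s)| min(1, C/(h(1+|t|)))² / |s| dt ≤ C y^σ N^(θ-σ+ε') ∫ |ζ(σ+it)| (1+|t|)^(ε'-1) min(1, 1/(h(1+|t|)))² dt`
and the integral is at most `C h^(-2ε')` because `∫_{-T}^T |ζ(σ+it)| dt ≤ C T` for `σ > 1/2`, `T ≥ 1` (mean square of zeta,
in the library, for example in the files of helper80, helper276, helper97; or any bound `C T^(1+ε')`). -/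
def J_SUP : Prop := ∀ θ : ℝ, 1 / 2 ≤ θ → (∀ s : ℂ, θ < s.re → riemannZeta s ≠ 0) → ∀ σ ε : ℝ, θ < σ → σ < 1 →
  0 < ε → ∃ C : ℝ, 0 < C ∧ ∀ (N : ℕ) (y : ℝ), 1 ≤ N → 0 < y →
  ‖ey N (mob N) y‖ ≤ C * (N : ℝ) ^ (θ - σ + ε) * y ^ σ

/-- JOB LBI (0.6 h, uses `J_TR`): the lower bound for `p = ∞`. As JOB LB: `1/(2|ρ|) ≤ |∫ u K| ≤ M ∫ |K| y^σ`. -/
def J_LBI : Prop := ∀ σ : ℝ, 0 < σ → σ < 1 → ∀ ρ : ℂ, riemannZeta ρ = 0 → 0 < ρ.re → ρ.re < 1 →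
  ∃ c : ℝ, 0 < c ∧ ∀ lam : ℝ, 0 < lam → lam ≤ 1 / 2 → ∀ a : ℝ →₀ ℂ, (∀ θ ∈ a.support, lam ≤ θ ∧ θ ≤ 1) →
  ∀ M : ℝ, (∀ y : ℝ, 0 < y → ‖eyR a y‖ ≤ M * y ^ σ) →
  (ρ.re < σ → c * lam ^ (σ - ρ.re) ≤ M) ∧
  (ρ.re = σ → c * (Real.log (1 / lam))⁻¹ ≤ M) ∧
  (σ < ρ.re → c ≤ M)

/-- JOB HO2 (0.3 h): interpolation for `p ≥ 2`: `|u|^p y^(-pσ-1) = (|u| y^(-σ))^(p-2) |u|² y^(-2σ-1)`. -/
def J_HO2 : Prop := ∀ p σ M : ℝ, 2 ≤ p → 0 ≤ M → ∀ u : ℝ → ℂ, Measurable u →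
  IntegrableOn (fun y : ℝ => ‖u y‖ ^ 2 * y ^ (-(2 * σ) - 1)) (Ioi 0) → (∀ y : ℝ, 0 < y → ‖u y‖ ≤ M * y ^ σ) →
  IntegrableOn (fun y : ℝ => ‖u y‖ ^ p * y ^ (-(p * σ) - 1)) (Ioi 0) ∧
  ny p σ u ≤ M ^ (1 - 2 / p) * (∫ y in Ioi (0 : ℝ), ‖u y‖ ^ 2 * y ^ (-(2 * σ) - 1)) ^ (1 / p)

end Pool.Agent.Q120.NB
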